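import Pool.Agent.H10.BL.Stmts
import Pool.Agent.H51.RIC.MOM

/-! BL, module MOMG: moments modulo a number of any size. -/

set_option autoImplicit false

namespace Pool.BL

open Finset Pool.Agent.H98.ABCR Pool.SHA

theorem momg_thm (h1 : Pool.MED.S_RTN) (h2 : Pool.FEX.S_OMB) : S_MOMG := by
  intro s J ε hε
  classical
  have hs0 : (0 : ℝ) ≤ s := Nat.cast_nonneg s
  have hε1 : 0 < ε / (s + 1) := div_pos hε (by linarith)
  obtain ⟨C1, hC1, hO1⟩ := h2 (2 ^ s) (ε / (s + 1)) (one_le_pow₀ (by norm_num)) hε1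
  obtain ⟨C2, hC2, hO2⟩ := h2 (2 * J + 1) ε
    (by have : (0 : ℝ) ≤ J := Nat.cast_nonneg _
        linarith) hε
  refine ⟨C2 * C1, by nlinarith, ?_⟩
  intro q e N U hq0 he heJ hN hU
  have hq : 1 ≤ q := hq0
  have hq1 : (1 : ℝ) ≤ q := by exact_mod_cast hq
  have hN1 : (1 : ℝ) ≤ N := by exact_mod_cast hN
  have hU1 : ∀ u ∈ U, 1 ≤ u := fun u hu =>
    Nat.one_le_iff_ne_zero.mpr (hU u hu).1.ne_zero
  -- the bound for one second tuple
  set Φ : ℝ := C1 * (N : ℝ) ^ ε with hΦ
  have hΦ0 : 0 ≤ Φ := by positivity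
  set Ψ : ℝ := C2 * (q : ℝ) ^ ε * (1 + (N : ℝ) ^ s / q) with hΨ
  have hprod : ∀ w ∈ (Fintype.piFinset fun _ : Fin s => U),
      1 ≤ ∏ i, w i ∧ ∏ i, w i ≤ N ^ s ∧ (∏ i, w i).Coprime q := by
    intro w hw
    have hwU := Fintype.mem_piFinset.mp hw
    refine ⟨?_, ?_, ?_⟩
    · exact Nat.one_le_iff_ne_zero.mpr (prod_ne_zero_iff.mpr fun i _ => by
        have := hU1 _ (hwU i)
        omega)
    · calc ∏ i, w i ≤ ∏ _i : Fin s, N :=
            prod_le_prod' (fun i _ => (hU _ (hwU i)).2.2)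
        _ = N ^ s := by rw [prod_const, card_univ, Fintype.card_fin]
    · exact Nat.Coprime.prod_left fun i _ => (hU _ (hwU i)).2.1
  have hNs : ((N : ℝ) ^ s) ^ (ε / (s + 1)) ≤ (N : ℝ) ^ ε := by
    rw [← Real.rpow_natCast, ← Real.rpow_mul (by linarith)]
    apply Real.rpow_le_rpow_of_exponent_le hN1
    rw [mul_div_assoc', div_le_iff₀ (by linarith)]
    nlinarith
  have hF : ∀ b : ℕ, (((Fintype.piFinset fun _ : Fin s => U).filter
      (fun w => (∏ i, w i) ^ e ≡ b [MOD q])).card : ℝ) ≤ Ψ * Φ := by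
    intro b
    refine (Pool.RIC.mom_fib _ (fun w : Fin s → ℕ => ∏ i, w i) Φ ?_).trans
      (mul_le_mul_of_nonneg_right ?_ hΦ0)
    · intro A hA
      obtain ⟨w, hw, rfl⟩ := mem_image.mp hA
      have hw' := mem_filter.mp hw
      obtain ⟨ha, hb, -⟩ := hprod w hw'.1
      have h3 := Pool.RIC.mom_sqf (((Fintype.piFinset fun _ : Fin s => U).filter
        (fun w => (∏ i, w i) ^ e ≡ b [MOD q])).filter (fun a => ∏ i, a i = ∏ i, w i))
        (∏ i, w i) (by omega) (by
          intro a ha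
          have ha' := mem_filter.mp ha
          have ha2 := (mem_filter.mp ha'.1).1
          exact ⟨fun i => (hU _ (Fintype.mem_piFinset.mp ha2 i)).1, ha'.2⟩)
      have h4 := hO1 (∏ i, w i) ha
      calc ((((Fintype.piFinset fun _ : Fin s => U).filter
        (fun w => (∏ i, w i) ^ e ≡ b [MOD q])).filter
          (fun a => ∏ i, a i = ∏ i, w i)).card : ℝ)
          ≤ (((2 ^ om (∏ i, w i)) ^ s : ℕ) : ℝ) := Nat.cast_le.2 h3
        _ = ((2 : ℝ) ^ s) ^ (om (∏ i, w i)) := by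
          push_cast
          rw [← pow_mul, ← pow_mul, mul_comm]
        _ ≤ ((2 : ℝ) ^ s) ^ (om (∏ i, w i) + 1) :=
          pow_le_pow_right₀ (one_le_pow₀ (by norm_num)) (Nat.le_succ _)
        _ ≤ C1 * ((∏ i, w i : ℕ) : ℝ) ^ (ε / (s + 1)) := h4
        _ ≤ Φ := by
          rw [hΦ]
          have h5 : ((∏ i, w i : ℕ) : ℝ) ≤ (N : ℝ) ^ s := by exact_mod_cast hb
          exact mul_le_mul_of_nonneg_left
            ((Real.rpow_le_rpow (Nat.cast_nonneg _) h5 hε1.le).trans hNs) (by linarith)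
    · have h3 := h1 q e (N ^ s) (((Fintype.piFinset fun _ : Fin s => U).filter
        (fun w => (∏ i, w i) ^ e ≡ b [MOD q])).image (fun w : Fin s → ℕ => ∏ i, w i))
        (by omega) (by omega) (by
          intro x hx
          obtain ⟨w, hw, rfl⟩ := mem_image.mp hx
          obtain ⟨ha, hb, hc⟩ := hprod w (mem_filter.mp hw).1
          exact ⟨hc, hb⟩) (by
          intro x hx y hy
          obtain ⟨w, hw, rfl⟩ := mem_image.mp hx
          obtain ⟨w', hw', rfl⟩ := mem_image.mp hy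
          exact (mem_filter.mp hw).2.trans (mem_filter.mp hw').2.symm)
      have h4 := hO2 q hq
      have h9 : (2 * (e : ℝ)) ^ om q ≤ C2 * (q : ℝ) ^ ε := by
        have h5 : (e : ℝ) ≤ J := by exact_mod_cast heJ
        have h6 : (0 : ℝ) ≤ e := Nat.cast_nonneg _
        have h7 : (2 * (e : ℝ)) ^ om q ≤ (2 * (J : ℝ) + 1) ^ om q :=
          pow_le_pow_left₀ (by linarith) (by linarith) _
        have h8 : (2 * (J : ℝ) + 1) ^ om q ≤ (2 * (J : ℝ) + 1) ^ (om q + 1) :=
          pow_le_pow_right₀ (by linarith) (Nat.le_succ _)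
        linarith
      have h10 : ((N ^ s / q : ℕ) : ℝ) ≤ (N : ℝ) ^ s / q := by
        have := @Nat.cast_div_le ℝ _ _ _ (N ^ s) q
        push_cast at this
        exact this
      calc ((((Fintype.piFinset fun _ : Fin s => U).filter
        (fun w => (∏ i, w i) ^ e ≡ b [MOD q])).image
          (fun w : Fin s → ℕ => ∏ i, w i)).card : ℝ)
          ≤ (((2 * e) ^ q.primeFactors.card * (N ^ s / q + 1) : ℕ) : ℝ) := Nat.cast_le.2 h3
        _ = (2 * (e : ℝ)) ^ om q * (((N ^ s / q : ℕ) : ℝ) + 1) := by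
          rw [Nat.cast_mul, Nat.cast_add, Nat.cast_pow, Nat.cast_mul]
          norm_num [om]
        _ ≤ (2 * (e : ℝ)) ^ om q * (1 + (N : ℝ) ^ s / q) :=
          mul_le_mul_of_nonneg_left (by linarith) (by positivity)
        _ ≤ Ψ := by
          rw [hΨ]
          exact mul_le_mul_of_nonneg_right h9 (by positivity)
  have hΨ0 : 0 ≤ Ψ := by positivity
  -- number of the tuples
  have hcard : ((Fintype.piFinset fun _ : Fin s => U).card : ℝ) ≤ (N : ℝ) ^ s := by
    rw [Fintype.card_piFinset, prod_const, card_univ, Fintype.card_fin]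
    have h3 : U.card ≤ N := by
      have h4 : U ⊆ Finset.Icc 1 N := by
        intro u hu
        rw [Finset.mem_Icc]
        exact ⟨hU1 u hu, (hU u hu).2.2⟩
      have h5 := card_le_card h4
      rw [Nat.card_Icc] at h5
      omega
    exact_mod_cast Nat.pow_le_pow_left h3 s
  have h3 := Pool.RIC.mom_fib
    (((Fintype.piFinset fun _ : Fin s => U) ×ˢ (Fintype.piFinset fun _ : Fin s => U)).filter
    (fun w => (∏ i, w.1 i) ^ e ≡ (∏ i, w.2 i) ^ e [MOD q]))
    (fun w : (Fin s → ℕ) × (Fin s → ℕ) => w.2) (Ψ * Φ) (fun a _ => by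
      refine le_trans (Nat.cast_le.2 (card_le_card_of_injOn (fun w => w.1) ?_ ?_))
        (hF ((∏ i, a i) ^ e))
      · intro w hw
        have hw' := mem_filter.mp (mem_coe.mp hw)
        have hw2 := mem_filter.mp hw'.1
        have hw3 := mem_product.mp hw2.1
        rw [mem_coe]
        refine mem_filter.mpr ⟨hw3.1, ?_⟩
        have h4 := hw2.2
        rw [hw'.2] at h4
        exact h4
      · intro w hw w' hw' hww
        have h5 := (mem_filter.mp (mem_coe.mp hw)).2
        have h6 := (mem_filter.mp (mem_coe.mp hw')).2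
        exact Prod.ext hww (h5.trans h6.symm))
  have h7 : (((((Fintype.piFinset fun _ : Fin s => U) ×ˢ
      (Fintype.piFinset fun _ : Fin s => U)).filter
    (fun w => (∏ i, w.1 i) ^ e ≡ (∏ i, w.2 i) ^ e [MOD q])).image
        (fun w : (Fin s → ℕ) × (Fin s → ℕ) => w.2)).card : ℝ) ≤ (N : ℝ) ^ s := by
    refine le_trans (Nat.cast_le.2 (card_le_card (fun a ha => ?_))) hcard
    obtain ⟨w, hw, rfl⟩ := mem_image.mp ha
    exact (mem_product.mp (mem_filter.mp hw).1).2
  refine h3.trans ((mul_le_mul_of_nonneg_right h7 (mul_nonneg hΨ0 hΦ0)).trans (le_of_eq ?_))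
  rw [hΨ, hΦ, Real.mul_rpow (by linarith) (by linarith)]
  ring

end Pool.BL
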